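import Pool.Agent.Lib.MP_72e2e6_nt.Sm.Cnt.Avg

/-!
# Block B of the Smith type theorem: the final statement

`main_ineq` combines `coding` (union bound for the boxes) and `average`.
-/

namespace Pool.Agent.Lib.MP_72e2e6_nt.Sm.Cnt

open Finset

universe u1 u2 u3 u4 u5 u6 u7

/-- **Main inequality, combinatorial form.**
`P` = primes, `S i` = primes of degree `n i` (`i ∈ ι`, `card ι = K ≥ 1`), `T` = the other fixed
primes, `β` = the primes of degree `n r` (the last prime `b`), `z R b` says that the state of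
`(R, b)` is `σ`, `y R b` says that moreover `f` lifts to level `K + 1`.
If for every choice of `K` disjoint lists `e (i, ·)` of `M` primes in `S i`, outside `T`, the sets
`{w | z (e w) b}`, `{w | y (e w) b}` are the `Z b`, `Y b` of a `CodingData` of bounded size, then
`y` has at most `15/16` of the pairs of `z`, up to `ε * card β * ∏ #(S i)`. -/
theorem main_ineq (K : ℕ) (hK : 1 ≤ K) (B t1 t2 v : ℕ) (ε : ℝ) (hε : 0 < ε) :
    ∃ M : ℕ, 0 < M ∧ ∀ {ι : Type u1} {P : Type u2} {β : Type u3} [Fintype ι] [Fintype β]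
      (S : ι → Finset P) (T : Finset P) (z y : (ι → P) → β → Prop),
      Fintype.card ι = K →
      (∀ i, ((K * M : ℕ) : ℝ) * ((K * M : ℕ) + (#T : ℝ)) ≤ ε / 2 * #(S i)) →
      (∀ e : ι × Fin M → P, (∀ k, e k ∈ S k.1) → Function.Injective e → (∀ k, e k ∉ T) →
        ∃ (𝒜 : Type u4) (T1 : Type u5) (T2 : Type u6) (V : Type u7) (_ : Fintype 𝒜)
          (_ : Fintype T1) (_ : Fintype T2) (_ : Fintype V)
          (C0 : ℕ) (C : CodingData ι M β 𝒜 T1 T2 V C0), C0 ≤ B * (M + 1) ∧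
          Fintype.card T1 ≤ t1 ∧ Fintype.card T2 ≤ t2 ∧ Fintype.card V ≤ v ∧
          (∀ b w, w ∈ C.Z b ↔ z (fun i => e (i, w i)) b) ∧
          (∀ b w, w ∈ C.Y b ↔ y (fun i => e (i, w i)) b)) →
      (Nat.card {q : (ι → P) × β // (∀ i, q.1 i ∈ S i) ∧ y q.1 q.2} : ℝ) ≤
        15 / 16 * (Nat.card {q : (ι → P) × β // (∀ i, q.1 i ∈ S i) ∧ z q.1 q.2} : ℝ) +
          ε * Fintype.card β * ∏ i, (#(S i) : ℝ) := by
  classical
  obtain ⟨M, hM, hcod⟩ := coding.{u1, u3, u4, u5, u6, u7} K hK B t1 t2 v (ε / 2) (by positivity)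
  refine ⟨M, hM, ?_⟩
  intro ι P β _ _ S T z y hι hbig H
  have h := average hM S T z y (15 / 16) (ε / 2) (by norm_num) (by positivity)
    (by rw [hι]; exact hbig) ?_
  · refine h.trans (le_of_eq ?_)
    ring
  · intro e he hinj heT
    obtain ⟨𝒜, T1, T2, V, i1, i2, i3, i4, C0, C, h1, h2, h3, h4, hZ, hY⟩ := H e he hinj heT
    have h5 := hcod M le_rfl C hι h1 h2 h3 h4
    have hZc : ∀ b, (#(C.Z b) : ℝ) =
        (Nat.card {w : ι → Fin M // z (fun i => e (i, w i)) b} : ℝ) := by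
      intro b
      rw [Nat.subtype_card (C.Z b) (fun w => hZ b w)]
    have hYc : ∀ b, (#(C.Y b) : ℝ) =
        (Nat.card {w : ι → Fin M // y (fun i => e (i, w i)) b} : ℝ) := by
      intro b
      rw [Nat.subtype_card (C.Y b) (fun w => hY b w)]
    simp only [hZc, hYc] at h5
    rw [hι]
    exact h5

end Pool.Agent.Lib.MP_72e2e6_nt.Sm.Cnt
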