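import Pool.Agent.Lib.MP_72e2e6_nt.Sm.Cnt.Main

/-!
# Averaging over the boxes

`average`: from the inequality for the boxes `∏ X_i`, `X_i ⊆ S_i` (all elements of the `X_i`
different and outside `T`), to the inequality for `∏ S_i`.
-/

namespace Pool.Agent.Lib.MP_72e2e6_nt.Sm.Cnt

open Finset

set_option linter.unusedSectionVars false

variable {ι P : Type*} [Fintype ι] [DecidableEq ι] [DecidableEq P] {M : ℕ}

/-- All families. -/
def Fam (M : ℕ) (S : ι → Finset P) : Finset (ι × Fin M → P) :=
  Fintype.piFinset fun k => S k.1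

theorem mem_Fam {S : ι → Finset P} {e : ι × Fin M → P} : e ∈ Fam M S ↔ ∀ k, e k ∈ S k.1 :=
  Fintype.mem_piFinset

theorem card_Fam (S : ι → Finset P) (hM : 0 < M) :
    (#(Fam M S) : ℝ) = (∏ i, (#(S i) : ℝ) ^ (M - 1)) * ∏ i, (#(S i) : ℝ) := by
  have h1 : #(Fam M S) = ∏ k : ι × Fin M, #(S k.1) := by
    rw [Fam, Fintype.card_piFinset]
  rw [h1, ← prod_mul_distrib]
  push_cast
  rw [Fintype.prod_prod_type]
  refine prod_congr rfl fun i _ => ?_
  simp only [prod_const, card_univ, Fintype.card_fin]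
  rw [← pow_succ]
  congr 1; omega

theorem sum_Fam (S : ι → Finset P) (w : ι → Fin M) (h : (ι → P) → ℝ) :
    ∑ e ∈ Fam M S, h (fun i => e (i, w i)) =
      (∏ i, (#(S i) : ℝ) ^ (M - 1)) * ∑ R ∈ Fintype.piFinset S, h R := by
  classical
  have h1 : ∑ e ∈ Fam M S, h (fun i => e (i, w i)) =
      ∑ R ∈ Fintype.piFinset S, ∑ e ∈ (Fam M S).filter (fun e => (fun i => e (i, w i)) = R),
        h (fun i => e (i, w i)) := by
    rw [sum_fiberwise_of_maps_to]
    intro e he
    rw [Fintype.mem_piFinset]
    exact fun i => mem_Fam.mp he (i, w i)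
  rw [h1, mul_sum]
  refine sum_congr rfl fun R hR => ?_
  have h2 : ∑ e ∈ (Fam M S).filter (fun e => (fun i => e (i, w i)) = R),
      h (fun i => e (i, w i)) = #((Fam M S).filter (fun e => (fun i => e (i, w i)) = R)) • h R := by
    rw [← sum_const]
    refine sum_congr rfl fun e he => ?_
    rw [(mem_filter.mp he).2]
  rw [h2, nsmul_eq_mul]
  congr 1
  have h3 : (Fam M S).filter (fun e => (fun i => e (i, w i)) = R) =
      Fintype.piFinset fun k : ι × Fin M => if k.2 = w k.1 then {R k.1} else S k.1 := by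
    ext e
    rw [mem_filter, mem_Fam, Fintype.mem_piFinset]
    constructor
    · rintro ⟨he, hw⟩ k
      by_cases hk : k.2 = w k.1
      · rw [if_pos hk, mem_singleton, ← hw]
        simp only
        rw [← hk]
      · rw [if_neg hk]; exact he k
    · intro he
      constructor
      · intro k
        have h4 := he k
        by_cases hk : k.2 = w k.1
        · rw [if_pos hk, mem_singleton] at h4
          rw [h4]
          exact (Fintype.mem_piFinset.mp hR) k.1
        · rwa [if_neg hk] at h4
      · funext i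
        have h4 := he (i, w i)
        simpa using h4
  rw [h3, Fintype.card_piFinset]
  push_cast
  rw [Fintype.prod_prod_type]
  refine prod_congr rfl fun i _ => ?_
  have h4 : ∀ j : Fin M, ((#(if j = w i then {R i} else S i) : ℕ) : ℝ) =
      if j = w i then (1 : ℝ) else #(S i) := by
    intro j
    by_cases hj : j = w i <;> simp [hj]
  simp only [h4]
  rw [← mul_prod_erase univ _ (mem_univ (w i)), if_pos rfl, one_mul]
  rw [prod_congr rfl (g := fun _ => (#(S i) : ℝ)) (fun j hj => if_neg (ne_of_mem_erase hj))]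
  rw [prod_const, card_erase_of_mem (mem_univ _)]
  simp

/-- Coincidences are rare. -/
theorem card_coincide (S : ι → Finset P) (k k' : ι × Fin M) (hk : k ≠ k') :
    #((Fam M S).filter fun e => e k = e k') * #(S k.1) ≤ #(Fam M S) := by
  classical
  rw [← card_product]
  refine card_le_card_of_injOn (fun q => Function.update q.1 k q.2) ?_ ?_
  · intro q hq
    simp only [coe_product, Set.mem_prod, mem_coe, mem_filter] at hq
    simp only [mem_coe]
    rw [mem_Fam]
    intro l
    by_cases hl : l = k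
    · subst hl; simpa using hq.2
    · rw [Function.update_of_ne hl]
      exact mem_Fam.mp hq.1.1 l
  · intro q hq q' hq' h
    simp only [coe_product, Set.mem_prod, mem_coe, mem_filter] at hq hq'
    simp only at h
    have h1 : q.2 = q'.2 := by
      have := congrFun h k
      simpa using this
    have h2 : ∀ l, l ≠ k → q.1 l = q'.1 l := by
      intro l hl
      have := congrFun h l
      simpa [Function.update_of_ne hl] using this
    have h3 : q.1 = q'.1 := by
      funext l
      by_cases hl : l = k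
      · subst hl
        rw [hq.1.2, hq'.1.2]
        exact h2 k' hk.symm
      · exact h2 l hl
    exact Prod.ext h3 h1

/-- Elements of `T` are rare. -/
theorem card_hit (S : ι → Finset P) (T : Finset P) (k : ι × Fin M) :
    #((Fam M S).filter fun e => e k ∈ T) * #(S k.1) ≤ #(Fam M S) * #T := by
  classical
  rw [← card_product, ← card_product]
  refine card_le_card_of_injOn (fun q => (Function.update q.1 k q.2, q.1 k)) ?_ ?_
  · intro q hq
    simp only [coe_product, Set.mem_prod, mem_coe, mem_filter] at hq ⊢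
    refine ⟨?_, hq.1.2⟩
    rw [mem_Fam]
    intro l
    by_cases hl : l = k
    · subst hl; simpa using hq.2
    · rw [Function.update_of_ne hl]
      exact mem_Fam.mp hq.1.1 l
  · intro q hq q' hq' h
    simp only [Prod.mk.injEq] at h
    obtain ⟨h, hkk⟩ := h
    have h1 : q.2 = q'.2 := by
      have := congrFun h k
      simpa using this
    have h2 : ∀ l, l ≠ k → q.1 l = q'.1 l := by
      intro l hl
      have := congrFun h l
      simpa [Function.update_of_ne hl] using this
    have h3 : q.1 = q'.1 := by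
      funext l
      by_cases hl : l = k
      · subst hl; exact hkk
      · exact h2 l hl
    exact Prod.ext h3 h1

/-- The bad families are rare. -/
theorem card_badFam (S : ι → Finset P) (T : Finset P) (ε : ℝ) (hε : 0 < ε)
    (hbig : ∀ i, ((Fintype.card ι * M : ℕ) : ℝ) * ((Fintype.card ι * M : ℕ) + (#T : ℝ)) ≤
      ε * #(S i)) (G : Finset (ι × Fin M → P))
    (hG : ∀ e ∈ Fam M S, Function.Injective e → (∀ k, e k ∉ T) → e ∈ G) :
    (#((Fam M S) \ G) : ℝ) ≤ ε * #(Fam M S) := by
  classical
  let B : ι × Fin M → Finset (ι × Fin M → P) := fun k =>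
    ((univ.filter fun k' => k ≠ k').biUnion fun k' => (Fam M S).filter fun e => e k = e k') ∪
      (Fam M S).filter fun e => e k ∈ T
  have h1 : (Fam M S) \ G ⊆ univ.biUnion B := by
    intro e he
    obtain ⟨he, heG⟩ := mem_sdiff.mp he
    rw [mem_biUnion]
    by_contra hcon
    push Not at hcon
    refine heG (hG e he ?_ ?_)
    · intro k k' hkk
      by_contra hne
      refine hcon k (mem_univ _) (mem_union_left _ ?_)
      rw [mem_biUnion]
      exact ⟨k', mem_filter.mpr ⟨mem_univ _, hne⟩, mem_filter.mpr ⟨he, hkk⟩⟩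
    · intro k hk
      exact hcon k (mem_univ _) (mem_union_right _ (mem_filter.mpr ⟨he, hk⟩))
  rcases Nat.eq_zero_or_pos (Fintype.card ι * M) with h0 | hpos
  · -- no coordinates
    have hcard : Fintype.card (ι × Fin M) = 0 := by simpa using h0
    have hemp : IsEmpty (ι × Fin M) := Fintype.card_eq_zero_iff.mp hcard
    have h2 : (Fam M S) \ G = ∅ := by
      rw [← Finset.subset_empty]
      refine h1.trans ?_
      rw [univ_eq_empty, biUnion_empty]
    rw [h2]
    simp only [card_empty, Nat.cast_zero]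
    positivity
  have hposr : (0 : ℝ) < ((Fintype.card ι * M : ℕ) : ℝ) := by exact_mod_cast hpos
  have hB : ∀ k, (#(B k) : ℝ) ≤ ε * #(Fam M S) / ((Fintype.card ι * M : ℕ) : ℝ) := by
    intro k
    have hSk : (0 : ℝ) < #(S k.1) := by
      have h2 := hbig k.1
      have h3 : (0 : ℝ) < ((Fintype.card ι * M : ℕ) : ℝ) *
          ((Fintype.card ι * M : ℕ) + (#T : ℝ)) := by positivity
      have h4 : 0 < ε * (#(S k.1) : ℝ) := lt_of_lt_of_le h3 h2
      exact (mul_pos_iff_of_pos_left hε).mp h4
    have h2 : (#(B k) : ℝ) * #(S k.1) ≤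
        ((Fintype.card ι * M : ℕ) + (#T : ℝ)) * #(Fam M S) := by
      have h3 : #(B k) ≤ (∑ k' ∈ univ.filter fun k' => k ≠ k',
          #((Fam M S).filter fun e => e k = e k')) + #((Fam M S).filter fun e => e k ∈ T) :=
        (card_union_le _ _).trans (by gcongr; exact card_biUnion_le)
      have h4 : #(B k) * #(S k.1) ≤ (Fintype.card ι * M) * #(Fam M S) + #(Fam M S) * #T := by
        calc #(B k) * #(S k.1) ≤ ((∑ k' ∈ univ.filter fun k' => k ≠ k',
              #((Fam M S).filter fun e => e k = e k')) +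
              #((Fam M S).filter fun e => e k ∈ T)) * #(S k.1) := Nat.mul_le_mul_right _ h3
          _ = (∑ k' ∈ univ.filter fun k' => k ≠ k',
              #((Fam M S).filter fun e => e k = e k') * #(S k.1)) +
              #((Fam M S).filter fun e => e k ∈ T) * #(S k.1) := by
                rw [add_mul, sum_mul]
          _ ≤ (∑ _k' ∈ univ.filter fun k' => k ≠ k', #(Fam M S)) + #(Fam M S) * #T := by
                refine Nat.add_le_add (sum_le_sum fun k' hk' => ?_) (card_hit S T k)
                exact card_coincide S k k' (mem_filter.mp hk').2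
          _ ≤ (∑ _k' : ι × Fin M, #(Fam M S)) + #(Fam M S) * #T := by
                refine Nat.add_le_add (sum_le_sum_of_subset (filter_subset _ _)) le_rfl
          _ = _ := by simp
      have h5 : ((#(B k) * #(S k.1) : ℕ) : ℝ) ≤
          (((Fintype.card ι * M) * #(Fam M S) + #(Fam M S) * #T : ℕ) : ℝ) := by
        exact_mod_cast h4
      push_cast at h5 ⊢
      linarith
    rw [le_div_iff₀ hposr]
    have h6 := hbig k.1
    have h7 : (#(B k) : ℝ) * ((Fintype.card ι * M : ℕ) : ℝ) * #(S k.1) ≤
        ε * #(Fam M S) * #(S k.1) := by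
      calc (#(B k) : ℝ) * ((Fintype.card ι * M : ℕ) : ℝ) * #(S k.1)
          = ((#(B k) : ℝ) * #(S k.1)) * ((Fintype.card ι * M : ℕ) : ℝ) := by ring
        _ ≤ (((Fintype.card ι * M : ℕ) + (#T : ℝ)) * #(Fam M S)) *
            ((Fintype.card ι * M : ℕ) : ℝ) := by gcongr
        _ = (((Fintype.card ι * M : ℕ) : ℝ) * ((Fintype.card ι * M : ℕ) + (#T : ℝ))) *
            #(Fam M S) := by ring
        _ ≤ (ε * #(S k.1)) * #(Fam M S) := by gcongr
        _ = _ := by ring
    exact le_of_mul_le_mul_right h7 hSk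
  have h2 : (#((Fam M S) \ G) : ℝ) ≤ ∑ k, (#(B k) : ℝ) := by
    have h3 : #((Fam M S) \ G) ≤ ∑ k, #(B k) := (card_le_card h1).trans card_biUnion_le
    exact_mod_cast h3
  refine h2.trans ?_
  calc ∑ k, (#(B k) : ℝ) ≤ ∑ _k : ι × Fin M,
        ε * #(Fam M S) / ((Fintype.card ι * M : ℕ) : ℝ) := sum_le_sum fun k _ => hB k
    _ = ε * #(Fam M S) := by
        rw [sum_const, card_univ, Fintype.card_prod, Fintype.card_fin, nsmul_eq_mul]
        field_simp

theorem arith (m NE Y Z c ε B PS L : ℝ)
    (h : m * NE * Y ≤ c * (m * NE * Z) + NE * PS * (ε * m * B) + L)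
    (hL : L ≤ ε * (NE * PS) * (B * m)) (hm : 0 < m) (hNE : 0 < NE) :
    Y ≤ c * Z + 2 * ε * B * PS := by
  have h1 : (m * NE) * Y ≤ (m * NE) * (c * Z + 2 * ε * B * PS) := by
    calc (m * NE) * Y ≤ c * (m * NE * Z) + NE * PS * (ε * m * B) + L := h
      _ ≤ c * (m * NE * Z) + NE * PS * (ε * m * B) + ε * (NE * PS) * (B * m) := by linarith
      _ = _ := by ring
  exact le_of_mul_le_mul_left h1 (mul_pos hm hNE)

/-- **Averaging.** -/
theorem average {β : Type*} [Fintype β] (hM : 0 < M) (S : ι → Finset P) (T : Finset P)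
    (z y : (ι → P) → β → Prop) (c ε : ℝ) (hc : 0 ≤ c) (hε : 0 < ε)
    (hbig : ∀ i, ((Fintype.card ι * M : ℕ) : ℝ) * ((Fintype.card ι * M : ℕ) + (#T : ℝ)) ≤
      ε * #(S i))
    (H : ∀ e : ι × Fin M → P, (∀ k, e k ∈ S k.1) → Function.Injective e → (∀ k, e k ∉ T) →
      ∑ b, (Nat.card {w : ι → Fin M // y (fun i => e (i, w i)) b} : ℝ) ≤
        c * ∑ b, (Nat.card {w : ι → Fin M // z (fun i => e (i, w i)) b} : ℝ) +
          ε * (M : ℝ) ^ Fintype.card ι * Fintype.card β) :
    (Nat.card {q : (ι → P) × β // (∀ i, q.1 i ∈ S i) ∧ y q.1 q.2} : ℝ) ≤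
      c * (Nat.card {q : (ι → P) × β // (∀ i, q.1 i ∈ S i) ∧ z q.1 q.2} : ℝ) +
        2 * ε * Fintype.card β * ∏ i, (#(S i) : ℝ) := by
  classical
  -- counts as sums of indicators
  have hcnt : ∀ (h : (ι → P) → β → Prop),
      (Nat.card {q : (ι → P) × β // (∀ i, q.1 i ∈ S i) ∧ h q.1 q.2} : ℝ) =
        ∑ b, ∑ R ∈ Fintype.piFinset S, if h R b then (1 : ℝ) else 0 := by
    intro h
    have h1 : Nat.card {q : (ι → P) × β // (∀ i, q.1 i ∈ S i) ∧ h q.1 q.2} =
        #(((Fintype.piFinset S) ×ˢ (univ : Finset β)).filter fun q => h q.1 q.2) := by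
      rw [Nat.subtype_card]
      intro q
      simp [Fintype.mem_piFinset]
    rw [h1, card_filter]
    push_cast
    rw [sum_product, sum_comm]
  have hcnt2 : ∀ (h : (ι → P) → β → Prop) (e : ι × Fin M → P),
      ∑ b, (Nat.card {w : ι → Fin M // h (fun i => e (i, w i)) b} : ℝ) =
        ∑ b, ∑ w : ι → Fin M, if h (fun i => e (i, w i)) b then (1 : ℝ) else 0 := by
    intro h e
    refine sum_congr rfl fun b _ => ?_
    rw [Nat.card_eq_fintype_card, Fintype.card_subtype, card_filter]
    push_cast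
    rfl
  set NE : ℝ := ∏ i, (#(S i) : ℝ) ^ (M - 1) with hNE
  set PS : ℝ := ∏ i, (#(S i) : ℝ) with hPS
  have hsum : ∀ (h : (ι → P) → β → Prop),
      ∑ e ∈ Fam M S, ∑ b, (Nat.card {w : ι → Fin M // h (fun i => e (i, w i)) b} : ℝ) =
        (M : ℝ) ^ Fintype.card ι * NE *
          (Nat.card {q : (ι → P) × β // (∀ i, q.1 i ∈ S i) ∧ h q.1 q.2} : ℝ) := by
    intro h
    rw [hcnt h]
    simp only [hcnt2 h]
    rw [sum_comm, mul_sum]
    refine sum_congr rfl fun b _ => ?_
    rw [sum_comm]
    have h1 : ∀ w : ι → Fin M, ∑ e ∈ Fam M S, (if h (fun i => e (i, w i)) b then (1 : ℝ) else 0) =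
        NE * ∑ R ∈ Fintype.piFinset S, if h R b then (1 : ℝ) else 0 := fun w =>
      sum_Fam S w (fun R => if h R b then (1 : ℝ) else 0)
    simp only [h1]
    rw [sum_const, card_univ, nsmul_eq_mul]
    simp only [Fintype.card_pi, Fintype.card_fin, prod_const, card_univ]
    push_cast
    ring
  -- good families
  let G : Finset (ι × Fin M → P) := (Fam M S).filter fun e =>
    Function.Injective e ∧ ∀ k, e k ∉ T
  have hbad := card_badFam S T ε hε hbig G (fun e he h1 h2 => mem_filter.mpr ⟨he, h1, h2⟩)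
  have hMK : (0 : ℝ) < (M : ℝ) ^ Fintype.card ι := by positivity
  have htriv : ∀ e : ι × Fin M → P,
      ∑ b, (Nat.card {w : ι → Fin M // y (fun i => e (i, w i)) b} : ℝ) ≤
        Fintype.card β * (M : ℝ) ^ Fintype.card ι := by
    intro e
    calc ∑ b, (Nat.card {w : ι → Fin M // y (fun i => e (i, w i)) b} : ℝ)
        ≤ ∑ _b : β, (M : ℝ) ^ Fintype.card ι := by
          refine sum_le_sum fun b _ => ?_
          have h1 : Nat.card {w : ι → Fin M // y (fun i => e (i, w i)) b} ≤
              M ^ Fintype.card ι := by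
            rw [Nat.card_eq_fintype_card]
            refine (Fintype.card_subtype_le _).trans ?_
            simp
          exact_mod_cast h1
      _ = _ := by simp
  have hmain : ∑ e ∈ Fam M S, ∑ b, (Nat.card {w : ι → Fin M // y (fun i => e (i, w i)) b} : ℝ) ≤
      ∑ e ∈ Fam M S, (c * ∑ b, (Nat.card {w : ι → Fin M // z (fun i => e (i, w i)) b} : ℝ) +
          ε * (M : ℝ) ^ Fintype.card ι * Fintype.card β +
          if e ∈ (Fam M S) \ G then Fintype.card β * (M : ℝ) ^ Fintype.card ι else 0) := by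
    refine sum_le_sum fun e he => ?_
    have hz0 : 0 ≤ c * ∑ b, (Nat.card {w : ι → Fin M // z (fun i => e (i, w i)) b} : ℝ) := by
      positivity
    by_cases heG : e ∈ G
    · have h1 := H e (fun k => mem_Fam.mp he k) (mem_filter.mp heG).2.1 (mem_filter.mp heG).2.2
      have h2 : (0 : ℝ) ≤ if e ∈ (Fam M S) \ G then
          Fintype.card β * (M : ℝ) ^ Fintype.card ι else 0 := by
        split <;> positivity
      linarith
    · rw [if_pos (mem_sdiff.mpr ⟨he, heG⟩)]
      have h1 := htriv e
      have h2 : 0 ≤ ε * (M : ℝ) ^ Fintype.card ι * Fintype.card β := by positivity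
      linarith
  rw [hsum y, sum_add_distrib, sum_add_distrib, ← mul_sum, hsum z] at hmain
  have hlast : ∑ e ∈ Fam M S, (if e ∈ (Fam M S) \ G then
      (Fintype.card β : ℝ) * (M : ℝ) ^ Fintype.card ι else 0) ≤
      ε * #(Fam M S) * (Fintype.card β * (M : ℝ) ^ Fintype.card ι) := by
    rw [← sum_filter, sum_const, nsmul_eq_mul]
    gcongr
    refine le_trans ?_ hbad
    exact_mod_cast card_le_card (fun e he => (mem_filter.mp he).2)
  rw [sum_const, nsmul_eq_mul] at hmain
  have hcF : (#(Fam M S) : ℝ) = NE * PS := card_Fam S hM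
  have hNE0 : 0 < NE := by
    rw [hNE]
    refine prod_pos fun i _ => ?_
    have hSi : (0 : ℝ) < #(S i) := by
      have h2 := hbig i
      have hK : 0 < Fintype.card ι := Fintype.card_pos_iff.mpr ⟨i⟩
      have hKM : 0 < Fintype.card ι * M := Nat.mul_pos hK hM
      have hKMr : (0 : ℝ) < ((Fintype.card ι * M : ℕ) : ℝ) := by exact_mod_cast hKM
      have h3 : (0 : ℝ) < ((Fintype.card ι * M : ℕ) : ℝ) *
          ((Fintype.card ι * M : ℕ) + (#T : ℝ)) := by positivity
      exact (mul_pos_iff_of_pos_left hε).mp (lt_of_lt_of_le h3 h2)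
    positivity
  rw [hcF] at hmain hlast
  exact arith _ _ _ _ _ _ _ _ _ hmain hlast hMK hNE0

end Pool.Agent.Lib.MP_72e2e6_nt.Sm.Cnt
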