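import Pool.Agent.Lib.MP_72e2e6_nt.Sm.Cnt.Kst

/-!
# Coding of partial functions which obey a completion rule

A partial function `g : (ι → Fin M) → Option V` which obeys a completion rule on cubes is
determined by its restriction `code g` to the points which are not the top vertex of a cube in
the support of `g`; the support of `code g` contains no cube.  Hence there are at most
`2 ^ (δ * M ^ K)` such functions.
-/

namespace Pool.Agent.Lib.MP_72e2e6_nt.Sm.Cnt

open Finset

set_option linter.unusedSectionVars false

variable {ι : Type*} [Fintype ι] [DecidableEq ι] {M : ℕ}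

/-- Kővári–Sós–Turán for `ι → Fin M`. -/
theorem kst (hM : 0 < M) (C : Finset (ι → Fin M)) (hC : ∀ p, ¬ Corner (· ∈ C) p) :
    (#C : ℝ) ≤ cst M (Fintype.card ι) * (M : ℝ) ^ (Fintype.card ι) := by
  classical
  let e : ι ≃ Fin (Fintype.card ι) := Fintype.equivFin ι
  let E : (ι → Fin M) ≃ (Fin (Fintype.card ι) → Fin M) :=
    Equiv.arrowCongr e (Equiv.refl _)
  have hE : ∀ (f : ι → Fin M) i, E f i = f (e.symm i) := fun f i => rfl
  have h := kst_fin M hM (Fintype.card ι) (C.map E.toEmbedding) ?_
  · simpa using h
  · rintro p ⟨x, hx, hw⟩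
    refine hC (E.symm p) ⟨E.symm x, fun i => ?_, fun w => ?_⟩
    · have := hx (e i)
      simpa [E] using this
    · have := hw (fun i => w (e.symm i))
      simp only [mem_map_equiv] at this
      have h2 : E.symm (vtx x p fun i => w (e.symm i)) = vtx (E.symm x) (E.symm p) w := by
        funext i
        simp [vtx, E]
      rw [h2] at this
      exact this

variable {V : Type*}

open Classical in
/-- The code of a partial function. -/
noncomputable def code (g : (ι → Fin M) → Option V) : (ι → Fin M) → Option V :=
  fun p => if Corner (fun q => g q ≠ none) p then none else g p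

theorem code_support (g : (ι → Fin M) → Option V) (p : ι → Fin M) :
    ¬ Corner (fun q => code g q ≠ none) p := by
  intro h
  have h1 : Corner (fun q => g q ≠ none) p := by
    refine h.mono fun q hq => ?_
    unfold code at hq
    split at hq
    · exact absurd rfl hq
    · exact hq
  have h2 := h.self
  simp [code, h1] at h2

/-- The completion rule determines a partial function from its code. -/
theorem code_injective (D : (ι → Fin M) → Prop) (g g' : (ι → Fin M) → Option V)
    (hs : ∀ p, g p ≠ none → D p) (hs' : ∀ p, g' p ≠ none → D p)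
    (hr : ∀ x p : ι → Fin M, (∀ i, x i < p i) → (∀ w, D (vtx x p w)) →
      (∀ w, w ≠ (fun _ => true) → g (vtx x p w) ≠ none ∧ g (vtx x p w) = g' (vtx x p w)) →
      g p = g' p)
    (hc : code g = code g') : g = g' := by
  classical
  have key : ∀ n : ℕ, ∀ p : ι → Fin M, ∑ i, (p i : ℕ) = n → g p = g' p := by
    intro n
    induction n using Nat.strong_induction_on with
    | _ n ih =>
      intro p hp
      -- vertices different from the top are smaller
      have hlt : ∀ x : ι → Fin M, (∀ i, x i < p i) → ∀ w : ι → Bool, w ≠ (fun _ => true) →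
          g (vtx x p w) = g' (vtx x p w) := by
        intro x hx w hw
        refine ih (∑ i, ((vtx x p w) i : ℕ)) ?_ _ rfl
        rw [← hp]
        have hle := vtx_le hx w
        obtain ⟨j, hj⟩ : ∃ j, w j ≠ true := by
          by_contra hcon
          push Not at hcon
          exact hw (funext hcon)
        refine sum_lt_sum (fun i _ => by exact_mod_cast hle i) ⟨j, mem_univ _, ?_⟩
        have : vtx x p w j = x j := by simp [vtx, hj]
        rw [this]
        exact_mod_cast hx j
      by_cases h1 : Corner (fun q => g q ≠ none) p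
      · obtain ⟨x, hx, hw⟩ := h1
        refine hr x p hx (fun w => hs _ (hw w)) fun w hwt => ⟨hw w, hlt x hx w hwt⟩
      · by_cases h2 : Corner (fun q => g' q ≠ none) p
        · obtain ⟨x, hx, hw⟩ := h2
          refine hr x p hx (fun w => hs' _ (hw w)) fun w hwt => ?_
          have := hlt x hx w hwt
          exact ⟨by rw [this]; exact hw w, this⟩
        · have := congrFun hc p
          simpa [code, h1, h2] using this
  funext p
  exact key _ p rfl

/-- Generating function bound: families of partial functions with small supports. -/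
theorem card_small_support [Fintype V] [DecidableEq V] (H : Finset ((ι → Fin M) → Option V))
    (s : ℝ) (hH : ∀ h ∈ H, (#(univ.filter fun p => h p ≠ none) : ℝ) ≤ s) (x : ℝ) (hx : 0 < x)
    (hx1 : x ≤ 1) :
    (#H : ℝ) ≤ x ^ (-s) * (1 + Fintype.card V * x) ^ (Fintype.card (ι → Fin M)) := by
  classical
  have h1 : (#H : ℝ) * x ^ s ≤ ∑ h ∈ H, x ^ (#(univ.filter fun p => h p ≠ none)) := by
    rw [← nsmul_eq_mul, ← sum_const]
    refine sum_le_sum fun h hh => ?_
    rw [← Real.rpow_natCast]
    exact Real.rpow_le_rpow_of_exponent_ge hx hx1 (hH h hh)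
  have h2 : ∑ h ∈ H, x ^ (#(univ.filter fun p => h p ≠ none)) ≤
      ∑ h : (ι → Fin M) → Option V, x ^ (#(univ.filter fun p => h p ≠ none)) :=
    sum_le_sum_of_subset_of_nonneg (subset_univ _) fun _ _ _ => by positivity
  have h3 : ∑ h : (ι → Fin M) → Option V, x ^ (#(univ.filter fun p => h p ≠ none)) =
      (1 + Fintype.card V * x) ^ (Fintype.card (ι → Fin M)) := by
    have e1 : ∀ h : (ι → Fin M) → Option V, x ^ (#(univ.filter fun p => h p ≠ none)) =
        ∏ p, (if h p ≠ none then x else 1) := by
      intro h
      rw [prod_ite]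
      simp
    simp only [e1]
    have e2 := Finset.prod_univ_sum (fun _ : ι → Fin M => (univ : Finset (Option V)))
      (fun _ o => if o ≠ none then x else (1 : ℝ))
    rw [Fintype.piFinset_univ] at e2
    rw [← e2]
    rw [prod_const]
    congr 1
    rw [Fintype.sum_option]
    simp
  have h4 : (#H : ℝ) * x ^ s ≤ (1 + Fintype.card V * x) ^ (Fintype.card (ι → Fin M)) :=
    h1.trans (h2.trans h3.le)
  rw [Real.rpow_neg hx.le]
  have hxs : 0 < x ^ s := Real.rpow_pos_of_pos hx s
  rw [inv_mul_eq_div, le_div_iff₀ hxs]
  exact h4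

/-- The number of values of a family of partial functions obeying a common rule. -/
theorem card_values [Fintype V] [DecidableEq V] (hM : 0 < M) {β : Type*} (S : Finset β)
    (D : (ι → Fin M) → Prop) (g : β → (ι → Fin M) → Option V)
    (hs : ∀ b ∈ S, ∀ p, g b p ≠ none → D p)
    (hr : ∀ b ∈ S, ∀ b' ∈ S, ∀ x p : ι → Fin M, (∀ i, x i < p i) → (∀ w, D (vtx x p w)) →
      (∀ w, w ≠ (fun _ => true) → g b (vtx x p w) ≠ none ∧
        g b (vtx x p w) = g b' (vtx x p w)) → g b p = g b' p)
    (x : ℝ) (hx : 0 < x) (hx1 : x ≤ 1) :
    (#(S.image g) : ℝ) ≤ x ^ (-(cst M (Fintype.card ι) * (M : ℝ) ^ (Fintype.card ι))) *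
      (1 + Fintype.card V * x) ^ (Fintype.card (ι → Fin M)) := by
  classical
  have h1 : #(S.image g) = #((S.image g).image code) := by
    symm
    apply card_image_of_injOn
    intro u hu v hv huv
    simp only [coe_image, Set.mem_image, mem_coe] at hu hv
    obtain ⟨b, hb, rfl⟩ := hu
    obtain ⟨b', hb', rfl⟩ := hv
    exact code_injective D (g b) (g b') (hs b hb) (hs b' hb') (hr b hb b' hb') huv
  rw [h1]
  refine card_small_support _ _ ?_ x hx hx1
  intro h hh
  simp only [mem_image] at hh
  obtain ⟨u, -, rfl⟩ := hh
  refine kst hM _ fun p hp => code_support u p ?_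
  exact hp.mono fun q hq => by simpa using hq

end Pool.Agent.Lib.MP_72e2e6_nt.Sm.Cnt
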