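import Mathlib

/-!
# Cubes in `ι → Fin M` and the Kővári–Sós–Turán bound

Block B (counting) of the Smith type theorem over `F_q(t)` (note 2995).
A cube is given by its bottom vertex `x` and its top vertex `p` (`x i < p i` for all `i`).
A set of points without a cube has at most `c K M * M ^ K` points, with `c K M → 0`.
-/

namespace Pool.Agent.Lib.MP_72e2e6_nt.Sm.Cnt

open Finset

/-- The vertex `w` of the cube with bottom vertex `x` and top vertex `p`. -/
def vtx {ι : Type*} {M : ℕ} (x p : ι → Fin M) (w : ι → Bool) : ι → Fin M :=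
  fun i => if w i = true then p i else x i

/-- `p` is the top vertex of a cube all of whose vertices satisfy `Q`. -/
def Corner {ι : Type*} {M : ℕ} (Q : (ι → Fin M) → Prop) (p : ι → Fin M) : Prop :=
  ∃ x : ι → Fin M, (∀ i, x i < p i) ∧ ∀ w : ι → Bool, Q (vtx x p w)

theorem vtx_top {ι : Type*} {M : ℕ} (x p : ι → Fin M) : vtx x p (fun _ => true) = p := by
  funext i; simp [vtx]

theorem vtx_le {ι : Type*} {M : ℕ} {x p : ι → Fin M} (h : ∀ i, x i < p i) (w : ι → Bool) :
    vtx x p w ≤ p := by
  intro i
  unfold vtx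
  split
  · exact le_rfl
  · exact (h i).le

theorem Corner.mono {ι : Type*} {M : ℕ} {Q R : (ι → Fin M) → Prop} (h : ∀ p, Q p → R p)
    {p : ι → Fin M} (hp : Corner Q p) : Corner R p := by
  obtain ⟨x, hx, hq⟩ := hp
  exact ⟨x, hx, fun w => h _ (hq w)⟩

theorem Corner.self {ι : Type*} {M : ℕ} {Q : (ι → Fin M) → Prop}
    {p : ι → Fin M} (hp : Corner Q p) : Q p := by
  obtain ⟨x, hx, hq⟩ := hp
  have := hq (fun _ => true)
  rwa [vtx_top] at this

/-- The recursive constants of the Kővári–Sós–Turán bound. -/
noncomputable def cst (M : ℕ) : ℕ → ℝ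
  | 0 => 0
  | n + 1 => Real.sqrt (1 / M + cst M n)

theorem cst_nonneg (M : ℕ) : ∀ n, 0 ≤ cst M n
  | 0 => le_rfl
  | _ + 1 => Real.sqrt_nonneg _

theorem cst_tendsto (n : ℕ) :
    Filter.Tendsto (fun M : ℕ => cst M n) Filter.atTop (nhds 0) := by
  induction n with
  | zero => simp [cst]
  | succ n ih =>
    have h1 : Filter.Tendsto (fun M : ℕ => 1 / (M : ℝ) + cst M n) Filter.atTop (nhds (0 + 0)) :=
      tendsto_one_div_atTop_nhds_zero_nat.add ih
    have h2 := (Real.continuous_sqrt.tendsto (0 + 0)).comp h1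
    simpa [cst, Function.comp_def] using h2

/-- Kővári–Sós–Turán for `Fin n → Fin M`. -/
theorem kst_fin (M : ℕ) (hM : 0 < M) : ∀ (n : ℕ) (C : Finset (Fin n → Fin M)),
    (∀ p, ¬ Corner (· ∈ C) p) → (#C : ℝ) ≤ cst M n * (M : ℝ) ^ n := by
  intro n
  induction n with
  | zero =>
    intro C hC
    have : C = ∅ := by
      by_contra hne
      obtain ⟨p, hp⟩ := Finset.nonempty_iff_ne_empty.mpr hne
      refine hC p ⟨p, fun i => i.elim0, fun w => ?_⟩
      have : vtx p p w = p := by funext i; exact i.elim0
      rw [this]; exact hp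
    subst this
    simp [cst]
  | succ n ih =>
    intro C hC
    classical
    -- slices
    let sl : Fin M → Finset (Fin n → Fin M) := fun z => univ.filter fun q => Fin.cons z q ∈ C
    have hmem : ∀ z q, q ∈ sl z ↔ (Fin.cons z q : Fin (n + 1) → Fin M) ∈ C := by
      intro z q; simp [sl]
    have hcard : #C = ∑ z, #(sl z) := by
      have h1 : C = univ.biUnion fun z : Fin M => (sl z).image fun q =>
          (Fin.cons z q : Fin (n + 1) → Fin M) := by
        ext p
        simp only [mem_biUnion, mem_univ, true_and, mem_image, hmem]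
        constructor
        · intro hp
          exact ⟨p 0, Fin.tail p, by rwa [Fin.cons_self_tail], Fin.cons_self_tail p⟩
        · rintro ⟨z, q, hq, rfl⟩
          exact hq
      conv_lhs => rw [h1]
      rw [card_biUnion]
      · refine sum_congr rfl fun z _ => ?_
        refine card_image_of_injective _ fun q q' h => ?_
        exact (Fin.cons_injective2 h).2
      · intro z _ z' _ hzz
        simp only [Function.onFun]
        rw [Finset.disjoint_left]
        intro p hp hp'
        simp only [mem_image] at hp hp'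
        obtain ⟨q, _, rfl⟩ := hp
        obtain ⟨q', _, h⟩ := hp'
        apply hzz
        have := congrFun h 0
        simpa using this.symm
    have hinter : ∀ z z', z < z' → (#(sl z ∩ sl z') : ℝ) ≤ cst M n * (M : ℝ) ^ n := by
      intro z z' hzz
      refine ih _ fun q hq => ?_
      obtain ⟨x, hx, hw⟩ := hq
      refine hC (Fin.cons z' q) ⟨Fin.cons z x, ?_, ?_⟩
      · intro i
        refine Fin.cases ?_ ?_ i
        · simpa using hzz
        · intro i; simpa using hx i
      · intro w
        have h1 := hw (fun i => w i.succ)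
        simp only [mem_inter, hmem] at h1
        have h2 : vtx (Fin.cons z x : Fin (n + 1) → Fin M) (Fin.cons z' q) w =
            Fin.cons (if w 0 = true then z' else z) (vtx x q fun i => w i.succ) := by
          funext i
          refine Fin.cases ?_ ?_ i
          · simp [vtx]
          · intro i; simp [vtx]
        rw [h2]
        split
        · exact h1.2
        · exact h1.1
    have hinter' : ∀ z z', z ≠ z' → (#(sl z ∩ sl z') : ℝ) ≤ cst M n * (M : ℝ) ^ n := by
      intro z z' hzz
      rcases lt_or_gt_of_ne hzz with h | h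
      · exact hinter z z' h
      · rw [inter_comm]; exact hinter z' z h
    -- degrees
    let d : (Fin n → Fin M) → ℕ := fun q => #(univ.filter fun z => q ∈ sl z)
    have hd1 : ∑ q, d q = #C := by
      rw [hcard]
      simp only [d, card_filter]
      rw [sum_comm]
      refine sum_congr rfl fun z _ => ?_
      rw [← card_filter]
      congr 1
      ext q; simp
    have hd2 : ∑ q, (d q) ^ 2 = ∑ z, ∑ z', #(sl z ∩ sl z') := by
      have : ∀ q, (d q) ^ 2 = ∑ z, ∑ z', if q ∈ sl z ∩ sl z' then 1 else 0 := by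
        intro q
        simp only [d, card_filter, sq, sum_mul_sum, mem_inter]
        refine sum_congr rfl fun z _ => sum_congr rfl fun z' _ => ?_
        by_cases h1 : q ∈ sl z <;> by_cases h2 : q ∈ sl z' <;> simp [h1, h2]
      simp only [this]
      rw [sum_comm]
      refine sum_congr rfl fun z _ => ?_
      rw [sum_comm]
      refine sum_congr rfl fun z' _ => ?_
      rw [← card_filter]
      congr 1
      ext q; simp
    have hcs : ((#C : ℕ) : ℝ) ^ 2 ≤ (M : ℝ) ^ n * ∑ z, ∑ z', (#(sl z ∩ sl z') : ℝ) := by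
      have h := sq_sum_le_card_mul_sum_sq (s := (univ : Finset (Fin n → Fin M)))
        (f := fun q => (d q : ℝ))
      have e1 : ∑ q, (d q : ℝ) = (#C : ℝ) := by exact_mod_cast hd1
      have e2 : ∑ q, (d q : ℝ) ^ 2 = ∑ z, ∑ z', (#(sl z ∩ sl z') : ℝ) := by exact_mod_cast hd2
      have e3 : ((univ : Finset (Fin n → Fin M)).card : ℝ) = (M : ℝ) ^ n := by
        simp
      rw [e1, e2, e3] at h
      exact h
    have hMr : (0 : ℝ) < M := by exact_mod_cast hM
    have hc := cst_nonneg M n
    have hsum : ∑ z, ∑ z', (#(sl z ∩ sl z') : ℝ) ≤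
        (M : ℝ) * (M : ℝ) ^ n + (M : ℝ) ^ 2 * (cst M n * (M : ℝ) ^ n) := by
      have hb : ∀ z z' : Fin M, (#(sl z ∩ sl z') : ℝ) ≤
          (if z = z' then (M : ℝ) ^ n else 0) + cst M n * (M : ℝ) ^ n := by
        intro z z'
        by_cases h : z = z'
        · subst h
          rw [if_pos rfl]
          have h1 : #(sl z ∩ sl z) ≤ M ^ n := by
            refine (card_le_univ _).trans ?_
            simp
          have h2 : (#(sl z ∩ sl z) : ℝ) ≤ (M : ℝ) ^ n := by exact_mod_cast h1
          have h3 : 0 ≤ cst M n * (M : ℝ) ^ n := by positivity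
          linarith
        · rw [if_neg h, zero_add]
          exact hinter' z z' h
      calc ∑ z, ∑ z', (#(sl z ∩ sl z') : ℝ)
          ≤ ∑ z : Fin M, ∑ z' : Fin M, ((if z = z' then (M : ℝ) ^ n else 0)
              + cst M n * (M : ℝ) ^ n) :=
            sum_le_sum fun z _ => sum_le_sum fun z' _ => hb z z'
        _ = _ := by
            simp only [sum_add_distrib, sum_ite_eq, mem_univ, if_true, sum_const, card_univ,
              Fintype.card_fin, nsmul_eq_mul]
            ring
    have hfin : ((#C : ℕ) : ℝ) ^ 2 ≤ (cst M (n + 1) * (M : ℝ) ^ (n + 1)) ^ 2 := by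
      have h1 : (cst M (n + 1) * (M : ℝ) ^ (n + 1)) ^ 2 =
          (1 / M + cst M n) * ((M : ℝ) ^ (n + 1)) ^ 2 := by
        rw [mul_pow]
        simp only [cst]
        rw [Real.sq_sqrt (by positivity)]
      rw [h1]
      calc ((#C : ℕ) : ℝ) ^ 2 ≤ (M : ℝ) ^ n * ∑ z, ∑ z', (#(sl z ∩ sl z') : ℝ) := hcs
        _ ≤ (M : ℝ) ^ n * ((M : ℝ) * (M : ℝ) ^ n + (M : ℝ) ^ 2 * (cst M n * (M : ℝ) ^ n)) := by
            gcongr
        _ = _ := by
            field_simp
            ring
    have hnn : 0 ≤ cst M (n + 1) * (M : ℝ) ^ (n + 1) := by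
      have := cst_nonneg M (n + 1)
      positivity
    exact abs_le_of_sq_le_sq' hfin hnn |>.2

end Pool.Agent.Lib.MP_72e2e6_nt.Sm.Cnt
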