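import Pool.Agent.Lib.MP_72e2e6_nt.Sm.Cnt.Union

/-!
# The main counting theorem
-/

namespace Pool.Agent.Lib.MP_72e2e6_nt.Sm.Cnt

open Finset

set_option linter.unusedSectionVars false

section

variable {ι : Type*} [Fintype ι] [DecidableEq ι] {M : ℕ} {β 𝒜 T1 T2 V : Type*} {C0 : ℕ} [Fintype β]
  [Fintype 𝒜] [Fintype T1] [Fintype T2] [Fintype V]

/-- The number of top vertices is at least `#Y` minus a small number. -/
theorem pivots (C : CodingData ι M β 𝒜 T1 T2 V C0) (hM : 0 < M) (b : β) :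
    (#(C.Y b) : ℝ) - Fintype.card T2 * (cst M (Fintype.card ι) * (M : ℝ) ^ (Fintype.card ι)) ≤
      (Nat.card {p // ∃ τ, Corner (· ∈ C.L τ b) p} : ℝ) := by
  classical
  let P : Finset (ι → Fin M) := univ.filter fun p => ∃ τ, Corner (· ∈ C.L τ b) p
  let nc : T2 → Finset (ι → Fin M) := fun τ => (C.L τ b).filter fun p =>
    ¬ Corner (· ∈ C.L τ b) p
  have h1 : Nat.card {p // ∃ τ, Corner (· ∈ C.L τ b) p} = #P := by
    rw [Nat.card_eq_fintype_card, Fintype.card_subtype]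
  have h2 : C.Y b ⊆ P ∪ univ.biUnion nc := by
    intro p hp
    obtain ⟨τ, hτ⟩ := C.hYL b p hp
    by_cases h : ∃ τ, Corner (· ∈ C.L τ b) p
    · exact mem_union_left _ (by simpa [P] using h)
    · apply mem_union_right
      rw [mem_biUnion]
      refine ⟨τ, mem_univ _, ?_⟩
      simp only [nc, mem_filter]
      exact ⟨hτ, fun hc => h ⟨τ, hc⟩⟩
  have h3 : ∀ τ, (#(nc τ) : ℝ) ≤ cst M (Fintype.card ι) * (M : ℝ) ^ (Fintype.card ι) := by
    intro τ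
    refine kst hM _ fun p hp => ?_
    have h4 : Corner (· ∈ C.L τ b) p := hp.mono fun q hq => (mem_filter.mp hq).1
    have h5 := hp.self
    exact (mem_filter.mp h5).2 h4
  have h4 : (#(C.Y b) : ℝ) ≤ #P + ∑ τ, (#(nc τ) : ℝ) := by
    have h5 : #(C.Y b) ≤ #P + ∑ τ, #(nc τ) :=
      (card_le_card h2).trans ((card_union_le _ _).trans (by gcongr; exact card_biUnion_le))
    exact_mod_cast h5
  have h5 : ∑ τ, (#(nc τ) : ℝ) ≤
      Fintype.card T2 * (cst M (Fintype.card ι) * (M : ℝ) ^ (Fintype.card ι)) := by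
    calc ∑ τ, (#(nc τ) : ℝ) ≤ ∑ _τ : T2, (cst M (Fintype.card ι) *
          (M : ℝ) ^ (Fintype.card ι)) := sum_le_sum fun τ _ => h3 τ
      _ = _ := by simp
  rw [h1]
  linarith

/-- The number of values, with the bound `u`. -/
theorem card_values_u {W : Type*} [Fintype W] [DecidableEq W] (hM : 0 < M) (n : ℕ)
    (hW : Fintype.card W ≤ n) (u : ℝ) (x : ℝ) (hx : 0 < x) (hx1 : x ≤ 1)
    (hxu : x ^ (-(cst M (Fintype.card ι) * (M : ℝ) ^ (Fintype.card ι))) *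
      (1 + (n : ℝ) * x) ^ (M ^ (Fintype.card ι)) ≤ u) (S : Finset β)
    (D : (ι → Fin M) → Prop) (g : β → (ι → Fin M) → Option W)
    (hs : ∀ b ∈ S, ∀ p, g b p ≠ none → D p)
    (hr : ∀ b ∈ S, ∀ b' ∈ S, ∀ x p : ι → Fin M, (∀ i, x i < p i) → (∀ w, D (vtx x p w)) →
      (∀ w, w ≠ (fun _ => true) → g b (vtx x p w) ≠ none ∧
        g b (vtx x p w) = g b' (vtx x p w)) → g b p = g b' p) :
    (#(S.image g) : ℝ) ≤ u := by
  refine (card_values hM S D g hs hr x hx hx1).trans (le_trans ?_ hxu)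
  have hcard : Fintype.card (ι → Fin M) = M ^ Fintype.card ι := by simp
  rw [hcard]
  have h1 : (Fintype.card W : ℝ) ≤ (n : ℝ) := by exact_mod_cast hW
  have hxN : 0 < x ^ (-(cst M (Fintype.card ι) * (M : ℝ) ^ (Fintype.card ι))) :=
    Real.rpow_pos_of_pos hx _
  gcongr

/-- The number of values of a family of sets, with the bound `u`. -/
theorem card_values_set (hM : 0 < M) (n : ℕ) (hn : 1 ≤ n) (u : ℝ) (x : ℝ) (hx : 0 < x)
    (hx1 : x ≤ 1)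
    (hxu : x ^ (-(cst M (Fintype.card ι) * (M : ℝ) ^ (Fintype.card ι))) *
      (1 + (n : ℝ) * x) ^ (M ^ (Fintype.card ι)) ≤ u) (S : Finset β)
    (D : (ι → Fin M) → Prop) (L : β → Finset (ι → Fin M))
    (hs : ∀ b ∈ S, ∀ p ∈ L b, D p)
    (hr : ∀ b ∈ S, ∀ b' ∈ S, ∀ x p : ι → Fin M, (∀ i, x i < p i) → (∀ w, D (vtx x p w)) →
      (∀ w, w ≠ (fun _ => true) → vtx x p w ∈ L b ∧ vtx x p w ∈ L b') →
        (p ∈ L b ↔ p ∈ L b')) :
    (#(S.image L) : ℝ) ≤ u := by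
  classical
  let Φ : Finset (ι → Fin M) → (ι → Fin M) → Option Unit :=
    fun s p => if p ∈ s then some () else none
  have hΦ : ∀ s p, Φ s p ≠ none ↔ p ∈ s := by
    intro s p
    simp only [Φ]
    by_cases h : p ∈ s <;> simp [h]
  have hΦi : Function.Injective Φ := by
    intro s s' hss
    ext p
    rw [← hΦ s p, ← hΦ s' p, hss]
  have hcd : #(S.image L) = #(S.image fun b => Φ (L b)) := by
    rw [← card_image_of_injective (S.image L) hΦi, image_image]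
    rfl
  rw [hcd]
  refine card_values_u hM n (by simpa using hn) u x hx hx1 hxu S D (fun b => Φ (L b)) ?_ ?_
  · intro b hb p hp
    exact hs b hb p ((hΦ _ _).mp hp)
  · intro b hb b' hb' y p hy hD hw
    have h := hr b hb b' hb' y p hy hD fun w hwt => by
      obtain ⟨q1, q2⟩ := hw w hwt
      refine ⟨(hΦ _ _).mp q1, (hΦ _ _).mp ?_⟩
      rw [← q2]; exact q1
    by_cases hp : p ∈ L b
    · have hp' := h.mp hp
      simp only [Φ]
      rw [if_pos hp, if_pos hp']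
    · have hp' : p ∉ L b' := fun h' => hp (h.mpr h')
      simp only [Φ]
      rw [if_neg hp, if_neg hp']

/-- The bound for the final class. -/
theorem final_class (C : CodingData ι M β 𝒜 T1 T2 V C0) (hM : 0 < M) (t2 : ℕ) (c0 : ℝ)
    (hc0 : (C0 : ℝ) * Fintype.card β = c0 * Nat.card 𝒜) (hA0 : 0 < Nat.card 𝒜)
    (h2 : Fintype.card T2 ≤ t2) (b0 : β) (z : ℝ) (hz : 15 * z ≤ 16 * (#(C.Y b0) : ℝ))
    (S : Finset β)
    (hS : ∀ b ∈ S, C.a b = C.a b0 ∧ (∀ t, C.g t b = C.g t b0) ∧ C.Y b = C.Y b0 ∧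
        ∀ τ, C.L τ b = C.L τ b0) :
    (#S : ℝ) ≤ c0 * (2 : ℝ) ^ ((t2 : ℝ) * (cst M (Fintype.card ι) *
      (M : ℝ) ^ (Fintype.card ι)) - 15 / 16 * z) := by
  classical
  have hPb := C.hP b0
  have hle : #S ≤ Nat.card {b // C.a b = C.a b0 ∧ (∀ t, C.g t b = C.g t b0) ∧
      C.Y b = C.Y b0 ∧ ∀ τ, C.L τ b = C.L τ b0} := by
    rw [Nat.card_eq_fintype_card, Fintype.card_subtype]
    refine card_le_card fun b hb => ?_
    rw [mem_filter]
    exact ⟨mem_univ _, hS b hb⟩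
  have hpiv := pivots C hM b0
  have hN0 : 0 ≤ cst M (Fintype.card ι) * (M : ℝ) ^ (Fintype.card ι) :=
    mul_nonneg (cst_nonneg _ _) (by positivity)
  generalize cst M (Fintype.card ι) * (M : ℝ) ^ (Fintype.card ι) = N at *
  generalize Nat.card {p // ∃ τ, Corner (· ∈ C.L τ b0) p} = pv at *
  have hA0r : (0 : ℝ) < Nat.card 𝒜 := by exact_mod_cast hA0
  have hPr : (#S : ℝ) * (2 : ℝ) ^ (pv : ℝ) ≤ c0 := by
    rw [Real.rpow_natCast]
    have h6 : #S * 2 ^ pv * Nat.card 𝒜 ≤ C0 * Fintype.card β :=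
      (Nat.mul_le_mul_right _ (Nat.mul_le_mul_right _ hle)).trans hPb
    have h7 : (#S : ℝ) * 2 ^ pv * Nat.card 𝒜 ≤ c0 * Nat.card 𝒜 := by
      rw [← hc0]
      exact_mod_cast h6
    exact le_of_mul_le_mul_right h7 hA0r
  have hexp : 15 / 16 * z - (t2 : ℝ) * N ≤ (pv : ℝ) := by
    have h8 : (Fintype.card T2 : ℝ) * N ≤ (t2 : ℝ) * N := by
      have : (Fintype.card T2 : ℝ) ≤ t2 := by exact_mod_cast h2
      gcongr
    linarith
  have h9 : (#S : ℝ) * (2 : ℝ) ^ (15 / 16 * z - (t2 : ℝ) * N) ≤ c0 := by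
    refine le_trans ?_ hPr
    have := Real.rpow_le_rpow_of_exponent_le (by norm_num : (1 : ℝ) ≤ 2) hexp
    gcongr
  have h10 : (2 : ℝ) ^ (15 / 16 * z - (t2 : ℝ) * N) * (2 : ℝ) ^ ((t2 : ℝ) * N - 15 / 16 * z)
      = 1 := by
    rw [← Real.rpow_add (by norm_num)]
    simp
  have h11 : 0 < (2 : ℝ) ^ ((t2 : ℝ) * N - 15 / 16 * z) := by positivity
  calc (#S : ℝ) = (#S : ℝ) * ((2 : ℝ) ^ (15 / 16 * z - (t2 : ℝ) * N) *
        (2 : ℝ) ^ ((t2 : ℝ) * N - 15 / 16 * z)) := by rw [h10, mul_one]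
    _ = ((#S : ℝ) * (2 : ℝ) ^ (15 / 16 * z - (t2 : ℝ) * N)) *
        (2 : ℝ) ^ ((t2 : ℝ) * N - 15 / 16 * z) := by ring
    _ ≤ c0 * (2 : ℝ) ^ ((t2 : ℝ) * N - 15 / 16 * z) := by gcongr

/-- Levels 4 and 5. -/
theorem class_Y (C : CodingData ι M β 𝒜 T1 T2 V C0) (hM : 0 < M) (n t2 : ℕ) (hn : 1 ≤ n)
    (c0 : ℝ) (hc0' : 0 ≤ c0)
    (hc0 : (C0 : ℝ) * Fintype.card β = c0 * Nat.card 𝒜) (hA0 : 0 < Nat.card 𝒜) (u : ℝ)
    (hu : 1 ≤ u) (h2 : Fintype.card T2 ≤ t2)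
    (x : ℝ) (hx : 0 < x) (hx1 : x ≤ 1)
    (hxu : x ^ (-(cst M (Fintype.card ι) * (M : ℝ) ^ (Fintype.card ι))) *
      (1 + (n : ℝ) * x) ^ (M ^ (Fintype.card ι)) ≤ u)
    (b0 : β) (z : ℝ) (hz : 15 * z ≤ 16 * (#(C.Y b0) : ℝ)) (S : Finset β)
    (hS : ∀ b ∈ S, C.a b = C.a b0 ∧ (∀ t, C.g t b = C.g t b0) ∧ C.Y b = C.Y b0) :
    (#S : ℝ) ≤ c0 * (2 : ℝ) ^ ((t2 : ℝ) * (cst M (Fintype.card ι) *
      (M : ℝ) ^ (Fintype.card ι)) - 15 / 16 * z) * u ^ t2 := by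
  classical
  refine card_le_mul_image S (fun b => fun τ => C.L τ b) _ (u ^ t2) (by positivity) ?_ ?_
  · intro b4 hb4
    have e4 := hS b4 hb4
    refine final_class C hM t2 c0 hc0 hA0 h2 b4 z (by rw [e4.2.2]; exact hz) _ ?_
    intro b hb
    obtain ⟨hb, hL⟩ := mem_filter.mp hb
    obtain ⟨q1, q2, q3⟩ := hS b hb
    exact ⟨q1.trans e4.1.symm, fun t => (q2 t).trans (e4.2.1 t).symm, q3.trans e4.2.2.symm,
      fun τ => congrFun hL τ⟩
  · refine card_image_pi S C.L u hu t2 h2 fun τ => ?_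
    refine card_values_set hM n hn u x hx hx1 hxu S (fun p => p ∈ C.Y b0) (C.L τ) ?_ ?_
    · intro b hb p hp
      have := C.hLY τ b hp
      rwa [(hS b hb).2.2] at this
    · intro b hb b' hb' y p hy hD hw
      obtain ⟨e1, e2, e3⟩ := hS b hb
      obtain ⟨e1', e2', e3'⟩ := hS b' hb'
      exact C.hL τ b b' (e1.trans e1'.symm) (fun t => (e2 t).trans (e2' t).symm)
        (e3.trans e3'.symm) y p hy (by rw [e3]; exact hD) hw

/-- Level 3. -/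
theorem class_g (C : CodingData ι M β 𝒜 T1 T2 V C0) (hM : 0 < M) (n t2 : ℕ) (hn : 1 ≤ n)
    (c0 : ℝ) (hc0' : 0 ≤ c0)
    (hc0 : (C0 : ℝ) * Fintype.card β = c0 * Nat.card 𝒜) (hA0 : 0 < Nat.card 𝒜) (u E : ℝ)
    (hu : 1 ≤ u) (h2 : Fintype.card T2 ≤ t2)
    (x : ℝ) (hx : 0 < x) (hx1 : x ≤ 1)
    (hxu : x ^ (-(cst M (Fintype.card ι) * (M : ℝ) ^ (Fintype.card ι))) *
      (1 + (n : ℝ) * x) ^ (M ^ (Fintype.card ι)) ≤ u)
    (b0 : β) (S : Finset β)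
    (hb0 : E ≤ (#(C.Z b0) : ℝ))
    (hBad : ∀ b ∈ S, 15 * #(C.Z b) ≤ 16 * #(C.Y b))
    (hS : ∀ b ∈ S, C.a b = C.a b0 ∧ (∀ t, C.g t b = C.g t b0)) :
    (#S : ℝ) ≤ c0 * (2 : ℝ) ^ ((t2 : ℝ) * (cst M (Fintype.card ι) *
      (M : ℝ) ^ (Fintype.card ι)) - 7 / 16 * E) * u ^ t2 := by
  classical
  have hZ2 : ∀ b ∈ S, C.Z b = C.Z b0 := fun b hb => C.hZ b b0 (hS b hb).1 (hS b hb).2
  have hlev3 : (#S : ℝ) ≤ (c0 * (2 : ℝ) ^ ((t2 : ℝ) * (cst M (Fintype.card ι) *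
      (M : ℝ) ^ (Fintype.card ι)) - 15 / 16 * (#(C.Z b0) : ℝ)) * u ^ t2) *
      (2 : ℝ) ^ ((#(C.Z b0) : ℝ) / 2) := by
    refine card_le_mul_image S C.Y _ ((2 : ℝ) ^ ((#(C.Z b0) : ℝ) / 2)) (by positivity) ?_ ?_
    · intro b3 hb3
      refine class_Y C hM n t2 hn c0 hc0' hc0 hA0 u hu h2 x hx hx1 hxu b3 _ ?_ _ ?_
      · have := hBad b3 hb3
        rw [hZ2 b3 hb3] at this
        exact_mod_cast this
      · intro b hb
        obtain ⟨hb, hY⟩ := mem_filter.mp hb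
        obtain ⟨q1, q2⟩ := hS b hb
        obtain ⟨r1, r2⟩ := hS b3 hb3
        exact ⟨q1.trans r1.symm, fun t => (q2 t).trans (r2 t).symm, hY⟩
    · refine card_big_subsets (C.Z b0) _ ?_
      intro Y hY
      obtain ⟨b, hb, rfl⟩ := mem_image.mp hY
      rw [← hZ2 b hb]
      exact ⟨C.hYZ b, hBad b hb⟩
  refine hlev3.trans ?_
  generalize cst M (Fintype.card ι) * (M : ℝ) ^ (Fintype.card ι) = N
  generalize (#(C.Z b0) : ℝ) = z at *
  have h12 : (2 : ℝ) ^ ((t2 : ℝ) * N - 15 / 16 * z) * (2 : ℝ) ^ (z / 2) ≤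
      (2 : ℝ) ^ ((t2 : ℝ) * N - 7 / 16 * E) := by
    rw [← Real.rpow_add (by norm_num)]
    apply Real.rpow_le_rpow_of_exponent_le (by norm_num)
    linarith
  calc c0 * (2 : ℝ) ^ ((t2 : ℝ) * N - 15 / 16 * z) * u ^ t2 * (2 : ℝ) ^ (z / 2)
      = c0 * ((2 : ℝ) ^ ((t2 : ℝ) * N - 15 / 16 * z) * (2 : ℝ) ^ (z / 2)) *
        u ^ t2 := by ring
    _ ≤ c0 * (2 : ℝ) ^ ((t2 : ℝ) * N - 7 / 16 * E) * u ^ t2 := by gcongr

/-- The bad `b` are rare (explicit form). -/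
theorem bad_bound (C : CodingData ι M β 𝒜 T1 T2 V C0) (hM : 0 < M) (n t1 t2 : ℕ) (u E : ℝ)
    (hu : 1 ≤ u) (h1 : Fintype.card T1 ≤ t1) (h2 : Fintype.card T2 ≤ t2)
    (hn : 1 ≤ n) (hV : Fintype.card V ≤ n) (x : ℝ) (hx : 0 < x) (hx1 : x ≤ 1)
    (hxu : x ^ (-(cst M (Fintype.card ι) * (M : ℝ) ^ (Fintype.card ι))) *
      (1 + (n : ℝ) * x) ^ (M ^ (Fintype.card ι)) ≤ u) (Bad : Finset β)
    (hBad : ∀ b ∈ Bad, E ≤ (#(C.Z b) : ℝ) ∧ 15 * #(C.Z b) ≤ 16 * #(C.Y b)) :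
    (#Bad : ℝ) ≤ C0 * Fintype.card β * ((2 : ℝ) ^ ((t2 : ℝ) * (cst M (Fintype.card ι) *
      (M : ℝ) ^ (Fintype.card ι)) - 7 / 16 * E) * u ^ t2 * u ^ t1) := by
  classical
  rcases Bad.eq_empty_or_nonempty with rfl | ⟨bb, hbb⟩
  · simp only [card_empty, Nat.cast_zero]
    positivity
  have hA0 : 0 < Nat.card 𝒜 := by
    rw [Nat.card_eq_fintype_card]
    exact Fintype.card_pos_iff.mpr ⟨C.a bb⟩
  have hA0r : (0 : ℝ) < Nat.card 𝒜 := by exact_mod_cast hA0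
  obtain ⟨c0, hc0', hc0⟩ : ∃ c0 : ℝ, 0 ≤ c0 ∧ (C0 : ℝ) * Fintype.card β = c0 * Nat.card 𝒜 :=
    ⟨(C0 : ℝ) * Fintype.card β / Nat.card 𝒜, by positivity, by field_simp⟩
  rw [hc0]
  have hreorder : c0 * (Nat.card 𝒜 : ℝ) * ((2 : ℝ) ^ ((t2 : ℝ) * (cst M (Fintype.card ι) *
      (M : ℝ) ^ (Fintype.card ι)) - 7 / 16 * E) * u ^ t2 * u ^ t1) =
      c0 * (2 : ℝ) ^ ((t2 : ℝ) * (cst M (Fintype.card ι) *
      (M : ℝ) ^ (Fintype.card ι)) - 7 / 16 * E) * u ^ t2 * u ^ t1 * Nat.card 𝒜 := by ring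
  rw [hreorder]
  -- level 1: symbols
  refine card_le_mul_image Bad C.a _ (Nat.card 𝒜) (by positivity) ?_ ?_
  swap
  · have : #(Bad.image C.a) ≤ Nat.card 𝒜 := by
      rw [Nat.card_eq_fintype_card]
      exact card_le_univ _
    exact_mod_cast this
  intro b1 hb1
  -- level 2: partial functions
  refine card_le_mul_image _ (fun b => fun t => C.g t b) _ (u ^ t1) (by positivity) ?_ ?_
  swap
  · refine card_image_pi _ C.g u hu t1 h1 fun t => ?_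
    refine card_values_u hM n hV u x hx hx1 hxu _ (fun p => C.Dom t (C.a b1) p) (C.g t) ?_ ?_
    · intro b hb p hp
      have := C.hs t b p hp
      rwa [(mem_filter.mp hb).2] at this
    · intro b hb b' hb' y p hy hD hw
      have e1 := (mem_filter.mp hb).2
      have e2 := (mem_filter.mp hb').2
      exact C.hg t b b' (e1.trans e2.symm) y p hy (by rw [e1]; exact hD) hw
  intro b2 hb2
  obtain ⟨hb2B, hb2a⟩ := mem_filter.mp hb2
  refine class_g C hM n t2 hn c0 hc0' hc0 hA0 u E hu h2 x hx hx1 hxu b2 _ (hBad b2 hb2B).1 ?_ ?_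
  · intro b hb
    exact (hBad b (mem_filter.mp (mem_filter.mp hb).1).1).2
  · intro b hb
    obtain ⟨hb, hg⟩ := mem_filter.mp hb
    obtain ⟨hb, ha⟩ := mem_filter.mp hb
    exact ⟨ha.trans hb2a.symm, fun t => congrFun hg t⟩

end

/-- **Main counting theorem.** -/
theorem coding (K : ℕ) (hK : 1 ≤ K) (B t1 t2 v : ℕ) (ε : ℝ) (hε : 0 < ε) :
    ∃ M0 : ℕ, 0 < M0 ∧ ∀ M : ℕ, M0 ≤ M → ∀ {ι : Type*} [Fintype ι] {β 𝒜 T1 T2 V : Type*}
      [Fintype β] [Fintype 𝒜] [Fintype T1] [Fintype T2] [Fintype V] {C0 : ℕ}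
      (C : CodingData ι M β 𝒜 T1 T2 V C0), Fintype.card ι = K → C0 ≤ B * (M + 1) →
      Fintype.card T1 ≤ t1 → Fintype.card T2 ≤ t2 → Fintype.card V ≤ v →
      ∑ b, (#(C.Y b) : ℝ) ≤ 15 / 16 * ∑ b, (#(C.Z b) : ℝ) +
        ε * (M : ℝ) ^ K * Fintype.card β := by
  classical
  -- constants
  set δ : ℝ := ε / 2 * (7 / 32) / (2 + t1 + 2 * t2) with hδ
  have hδ0 : 0 < δ := by positivity
  obtain ⟨M1, hM1, hcode⟩ := small_codes K (v + 1) δ hδ0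
  -- B (M + 1) ≤ ε / 2 * 2 ^ (δ M)
  have hlim : ∀ᶠ M : ℕ in Filter.atTop, (B : ℝ) * (M + 1) ≤ ε / 2 * (2 : ℝ) ^ (δ * M) := by
    have hr : (1 : ℝ) < (2 : ℝ) ^ δ := Real.one_lt_rpow (by norm_num) hδ0
    have h1 : Filter.Tendsto (fun M : ℕ => (M : ℝ) ^ 1 / ((2 : ℝ) ^ δ) ^ M) Filter.atTop
        (nhds 0) := tendsto_pow_const_div_const_pow_of_one_lt 1 hr
    have h2 : ∀ᶠ M : ℕ in Filter.atTop, (M : ℝ) ^ 1 / ((2 : ℝ) ^ δ) ^ M < ε / 2 / (2 * (B + 1)) :=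
      h1.eventually_lt_const (by positivity)
    filter_upwards [h2, Filter.eventually_ge_atTop 1] with M hM hM1
    have h3 : (0 : ℝ) < ((2 : ℝ) ^ δ) ^ M := by positivity
    rw [div_lt_iff₀ h3, pow_one] at hM
    have h4 : ((2 : ℝ) ^ δ) ^ M = (2 : ℝ) ^ (δ * M) := by
      rw [← Real.rpow_natCast, ← Real.rpow_mul (by norm_num)]
    rw [h4] at hM
    have hM1' : (1 : ℝ) ≤ M := by exact_mod_cast hM1
    have h5 : (B : ℝ) * (M + 1) ≤ (2 * (B + 1)) * M := by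
      have : (0 : ℝ) ≤ B := by positivity
      nlinarith
    refine h5.trans ?_
    calc (2 * ((B : ℝ) + 1)) * M ≤ (2 * (B + 1)) * (ε / 2 / (2 * (B + 1)) * (2 : ℝ) ^ (δ * M)) := by
          gcongr
      _ = ε / 2 * (2 : ℝ) ^ (δ * M) := by field_simp
  obtain ⟨M2, hM2⟩ := hlim.exists_forall_of_atTop
  refine ⟨M1 + M2 + 1, by omega, ?_⟩
  intro M hM ι _ β 𝒜 T1 T2 V _ _ _ _ _ C0 C hι hC0 hT1 hT2 hV
  have hMpos : 0 < M := by omega
  have hMr : (1 : ℝ) ≤ M := by exact_mod_cast hMpos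
  obtain ⟨hcst, x, hx0, hx1, hxu⟩ := hcode M (by omega)
  set N : ℝ := (M : ℝ) ^ K with hN
  have hNM : (M : ℝ) ≤ N := by
    calc (M : ℝ) = (M : ℝ) ^ 1 := (pow_one _).symm
      _ ≤ N := pow_le_pow_right₀ hMr hK
  have hN0 : 0 < N := by positivity
  set u : ℝ := (2 : ℝ) ^ (δ * N) with hu
  have hu1 : 1 ≤ u := Real.one_le_rpow (by norm_num) (by positivity)
  set E : ℝ := ε / 2 * N with hE
  let Bad : Finset β := univ.filter fun b => E ≤ (#(C.Z b) : ℝ) ∧ 15 * #(C.Z b) ≤ 16 * #(C.Y b)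
  have hbad := bad_bound C hMpos (v + 1) t1 t2 u E hu1 hT1 hT2 (by omega) (by omega)
    x hx0 hx1 (by rw [hι]; exact hxu) Bad (fun b hb => (mem_filter.mp hb).2)
  rw [hι] at hbad
  -- the bad set is small
  have hbad2 : (#Bad : ℝ) ≤ ε / 2 * Fintype.card β := by
    refine hbad.trans ?_
    have h1 : (2 : ℝ) ^ ((t2 : ℝ) * (cst M K * (M : ℝ) ^ K) - 7 / 16 * E) ≤
        (2 : ℝ) ^ ((t2 : ℝ) * (δ * N) - 7 / 16 * E) := by
      apply Real.rpow_le_rpow_of_exponent_le (by norm_num)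
      have : cst M K * (M : ℝ) ^ K ≤ δ * N := by
        rw [hN]; gcongr
      have h3 : (t2 : ℝ) * (cst M K * (M : ℝ) ^ K) ≤ (t2 : ℝ) * (δ * N) := by gcongr
      linarith
    have h2 : u ^ t2 = (2 : ℝ) ^ (δ * N * t2) := by
      rw [hu, ← Real.rpow_natCast, ← Real.rpow_mul (by norm_num)]
    have h3 : u ^ t1 = (2 : ℝ) ^ (δ * N * t1) := by
      rw [hu, ← Real.rpow_natCast, ← Real.rpow_mul (by norm_num)]
    have h4 : (2 : ℝ) ^ ((t2 : ℝ) * (cst M K * (M : ℝ) ^ K) - 7 / 16 * E) * u ^ t2 * u ^ t1 ≤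
        (2 : ℝ) ^ (-(δ * M)) := by
      calc (2 : ℝ) ^ ((t2 : ℝ) * (cst M K * (M : ℝ) ^ K) - 7 / 16 * E) * u ^ t2 * u ^ t1
          ≤ (2 : ℝ) ^ ((t2 : ℝ) * (δ * N) - 7 / 16 * E) *
            (2 : ℝ) ^ (δ * N * t2) * (2 : ℝ) ^ (δ * N * t1) := by
            rw [h2, h3]
            gcongr
        _ = (2 : ℝ) ^ (((t2 : ℝ) * (δ * N) - 7 / 16 * E) + (δ * N * t2) + (δ * N * t1)) := by
            rw [Real.rpow_add (by norm_num), Real.rpow_add (by norm_num)]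
        _ ≤ (2 : ℝ) ^ (-(δ * M)) := by
            apply Real.rpow_le_rpow_of_exponent_le (by norm_num)
            have h4 : δ * (2 + t1 + 2 * t2) = ε / 2 * (7 / 32) := by
              rw [hδ]
              field_simp
            have h5 : δ * N * (2 + t1 + 2 * t2) = ε / 2 * (7 / 32) * N := by
              calc δ * N * (2 + t1 + 2 * t2) = δ * (2 + t1 + 2 * t2) * N := by ring
                _ = _ := by rw [h4]
            have h6 : ε / 2 * (7 / 32) * N ≤ 7 / 16 * E := by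
              rw [hE]
              have : 0 ≤ ε * N := by positivity
              linarith
            have h7 : δ * M ≤ δ * N := by gcongr
            have h8 : 0 ≤ δ * N := by positivity
            nlinarith
    have hCr : (C0 : ℝ) ≤ B * (M + 1) := by exact_mod_cast hC0
    have h5 := hM2 M (by omega)
    calc (C0 : ℝ) * Fintype.card β * ((2 : ℝ) ^ ((t2 : ℝ) * (cst M K * (M : ℝ) ^ K) - 7 / 16 * E) *
          u ^ t2 * u ^ t1) ≤ ((B : ℝ) * (M + 1)) * Fintype.card β * (2 : ℝ) ^ (-(δ * M)) := by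
          gcongr
      _ ≤ (ε / 2 * (2 : ℝ) ^ (δ * M)) * Fintype.card β * (2 : ℝ) ^ (-(δ * M)) := by gcongr
      _ = ε / 2 * Fintype.card β * ((2 : ℝ) ^ (δ * M) * (2 : ℝ) ^ (-(δ * M))) := by ring
      _ = ε / 2 * Fintype.card β := by
          rw [← Real.rpow_add (by norm_num)]
          simp
  -- conclusion
  have hY1 : ∀ b, (#(C.Y b) : ℝ) ≤ N := by
    intro b
    have h1 : #(C.Y b) ≤ M ^ K := by
      refine (card_le_univ _).trans ?_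
      simp [hι]
    rw [hN]
    exact_mod_cast h1
  have hY2 : ∀ b, b ∉ Bad → (#(C.Y b) : ℝ) ≤ 15 / 16 * (#(C.Z b) : ℝ) + E := by
    intro b hb
    have hb' : ¬ (E ≤ (#(C.Z b) : ℝ) ∧ 15 * #(C.Z b) ≤ 16 * #(C.Y b)) := by
      intro h; exact hb (mem_filter.mpr ⟨mem_univ _, h⟩)
    have hYZ : (#(C.Y b) : ℝ) ≤ #(C.Z b) := by exact_mod_cast card_le_card (C.hYZ b)
    have hE0 : 0 ≤ E := by positivity
    by_cases h : E ≤ (#(C.Z b) : ℝ)
    · have h1 : ¬ 15 * #(C.Z b) ≤ 16 * #(C.Y b) := fun h' => hb' ⟨h, h'⟩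
      push Not at h1
      have h2 : (16 : ℝ) * #(C.Y b) < 15 * #(C.Z b) := by exact_mod_cast h1
      linarith
    · push Not at h
      have h3 : (0 : ℝ) ≤ #(C.Z b) := by positivity
      linarith
  have hY3 : ∀ b, (#(C.Y b) : ℝ) ≤ 15 / 16 * (#(C.Z b) : ℝ) + E + (if b ∈ Bad then N else 0) := by
    intro b
    by_cases hb : b ∈ Bad
    · rw [if_pos hb]
      have h3 : (0 : ℝ) ≤ #(C.Z b) := by positivity
      have hE0 : 0 ≤ E := by positivity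
      have := hY1 b
      linarith
    · rw [if_neg hb, add_zero]
      exact hY2 b hb
  calc ∑ b, (#(C.Y b) : ℝ) ≤ ∑ b, (15 / 16 * (#(C.Z b) : ℝ) + E + (if b ∈ Bad then N else 0)) :=
        sum_le_sum fun b _ => hY3 b
    _ = 15 / 16 * ∑ b, (#(C.Z b) : ℝ) + Fintype.card β * E + #Bad * N := by
        rw [sum_add_distrib, sum_add_distrib, ← mul_sum]
        simp
    _ ≤ 15 / 16 * ∑ b, (#(C.Z b) : ℝ) + Fintype.card β * E + (ε / 2 * Fintype.card β) * N := by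
        gcongr
    _ = _ := by rw [hE]; ring

end Pool.Agent.Lib.MP_72e2e6_nt.Sm.Cnt
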