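import Pool.Agent.Lib.MP_72e2e6_nt.Sm.Cnt.Code

/-!
# The union bound

`coding`: the combinatorial form of the main inequality of the Smith type theorem (note 2995,
section 7).  For every `b` there are sets `Y b ⊆ Z b` in the box `ι → Fin M`; `b` is described by
its symbols `a b`, by finitely many partial functions `g t b` obeying completion rules at the top
vertices of cubes, and by sets `L τ b` which cover `Y b` and obey a completion rule inside `Y b`.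
If the number of `b` with the same description is at most
`C0 * card β / card 𝒜 / 2 ^ (number of top vertices of cubes in the L τ b)`,
then on average `Y b` has at most `15/16` of the points of `Z b`, up to `ε * M ^ K`.
-/

namespace Pool.Agent.Lib.MP_72e2e6_nt.Sm.Cnt

open Finset

set_option linter.unusedSectionVars false

/-! ## Elementary counting lemmas -/

theorem card_le_mul_image {β X : Type*} [DecidableEq β] [DecidableEq X] (s : Finset β)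
    (f : β → X) (n : ℝ) (m : ℝ) (hn : 0 ≤ n)
    (h : ∀ b ∈ s, (#(s.filter fun c => f c = f b) : ℝ) ≤ n)
    (hm : (#(s.image f) : ℝ) ≤ m) : (#s : ℝ) ≤ n * m := by
  have h1 : #s = ∑ x ∈ s.image f, #(s.filter fun c => f c = x) :=
    card_eq_sum_card_image f s
  have h2 : (#s : ℝ) = ∑ x ∈ s.image f, (#(s.filter fun c => f c = x) : ℝ) := by
    exact_mod_cast h1
  rw [h2]
  calc ∑ x ∈ s.image f, (#(s.filter fun c => f c = x) : ℝ)
      ≤ ∑ _x ∈ s.image f, n := by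
        refine sum_le_sum fun x hx => ?_
        obtain ⟨b, hb, rfl⟩ := mem_image.mp hx
        exact h b hb
    _ = n * #(s.image f) := by rw [sum_const, nsmul_eq_mul, mul_comm]
    _ ≤ n * m := by gcongr

theorem card_image_pi {β T X : Type*} [Fintype T] [DecidableEq T] [DecidableEq X]
    (s : Finset β) (f : T → β → X) (u : ℝ) (hu : 1 ≤ u) (t : ℕ) (ht : Fintype.card T ≤ t)
    (h : ∀ j, (#(s.image (f j)) : ℝ) ≤ u) :
    (#(s.image fun b => fun j => f j b) : ℝ) ≤ u ^ t := by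
  classical
  have h1 : (s.image fun b => fun j => f j b) ⊆ Fintype.piFinset fun j => s.image (f j) := by
    intro x hx
    obtain ⟨b, hb, rfl⟩ := mem_image.mp hx
    rw [Fintype.mem_piFinset]
    exact fun j => mem_image_of_mem _ hb
  have h2 := card_le_card h1
  rw [Fintype.card_piFinset] at h2
  calc (#(s.image fun b => fun j => f j b) : ℝ)
      ≤ ((∏ j, #(s.image (f j)) : ℕ) : ℝ) := by exact_mod_cast h2
    _ = ∏ j, (#(s.image (f j)) : ℝ) := by push_cast; rfl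
    _ ≤ ∏ _j : T, u := prod_le_prod (fun _ _ => by positivity) fun j _ => h j
    _ = u ^ Fintype.card T := by simp
    _ ≤ u ^ t := pow_le_pow_right₀ hu ht

/-- The number of subsets of `Z` with at least `15/16` of its points. -/
theorem card_big_subsets {Ω : Type*} [DecidableEq Ω] (Z : Finset Ω) (F : Finset (Finset Ω))
    (hF : ∀ Y ∈ F, Y ⊆ Z ∧ 15 * #Z ≤ 16 * #Y) :
    (#F : ℝ) ≤ (2 : ℝ) ^ ((#Z : ℝ) / 2) := by
  have hx : (0 : ℝ) < 1 / 16 := by norm_num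
  have h1 : (#F : ℝ) * (1 / 16 : ℝ) ^ ((#Z : ℝ) / 16) ≤
      ∑ Y ∈ F, (1 : ℝ) ^ #Y * (1 / 16) ^ (#Z - #Y) := by
    rw [← nsmul_eq_mul, ← sum_const]
    refine sum_le_sum fun Y hY => ?_
    obtain ⟨hs, hc⟩ := hF Y hY
    rw [one_pow, one_mul, ← Real.rpow_natCast]
    refine Real.rpow_le_rpow_of_exponent_ge hx (by norm_num) ?_
    have h2 : #Y ≤ #Z := card_le_card hs
    rw [Nat.cast_sub h2]
    have h3 : (15 : ℝ) * #Z ≤ 16 * #Y := by exact_mod_cast hc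
    linarith
  have h2 : ∑ Y ∈ F, (1 : ℝ) ^ #Y * (1 / 16) ^ (#Z - #Y) ≤
      ∑ Y ∈ Z.powerset, (1 : ℝ) ^ #Y * (1 / 16) ^ (#Z - #Y) := by
    refine sum_le_sum_of_subset_of_nonneg (fun Y hY => mem_powerset.mpr (hF Y hY).1)
      fun _ _ _ => by positivity
  rw [Finset.sum_pow_mul_eq_add_pow] at h2
  have h3 := h1.trans h2
  have e1 : (1 / 16 : ℝ) ^ ((#Z : ℝ) / 16) = (2 : ℝ) ^ (-((#Z : ℝ) / 4)) := by
    have : (1 / 16 : ℝ) = (2 : ℝ) ^ (-4 : ℝ) := by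
      rw [Real.rpow_neg (by norm_num)]
      norm_num
    rw [this, ← Real.rpow_mul (by norm_num)]
    congr 1
    ring
  have e2 : ((1 : ℝ) + 1 / 16) ^ #Z ≤ (2 : ℝ) ^ ((#Z : ℝ) / 4) := by
    have h4 : ((1 : ℝ) + 1 / 16) ≤ (2 : ℝ) ^ (1 / 4 : ℝ) := by
      have h5 : ((1 : ℝ) + 1 / 16) ^ (4 : ℝ) ≤ 2 := by
        have : ((1 : ℝ) + 1 / 16) ^ (4 : ℝ) = ((1 : ℝ) + 1 / 16) ^ (4 : ℕ) := by
          rw [← Real.rpow_natCast]; norm_num
        rw [this]; norm_num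
      calc ((1 : ℝ) + 1 / 16) = (((1 : ℝ) + 1 / 16) ^ (4 : ℝ)) ^ (1 / 4 : ℝ) := by
            rw [← Real.rpow_mul (by norm_num)]; norm_num
        _ ≤ 2 ^ (1 / 4 : ℝ) := Real.rpow_le_rpow (by positivity) h5 (by norm_num)
    calc ((1 : ℝ) + 1 / 16) ^ #Z ≤ ((2 : ℝ) ^ (1 / 4 : ℝ)) ^ #Z := by gcongr
      _ = (2 : ℝ) ^ ((#Z : ℝ) / 4) := by
        rw [← Real.rpow_natCast, ← Real.rpow_mul (by norm_num)]
        congr 1; ring
  have h4 : (#F : ℝ) * (2 : ℝ) ^ (-((#Z : ℝ) / 4)) ≤ (2 : ℝ) ^ ((#Z : ℝ) / 4) := by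
    rw [← e1]; exact h3.trans e2
  rw [Real.rpow_neg (by norm_num), ← div_eq_mul_inv, div_le_iff₀ (by positivity),
    ← Real.rpow_add (by norm_num)] at h4
  refine h4.trans (le_of_eq ?_)
  congr 1; ring

/-- The number of codes is `2 ^ o(M ^ K)`. -/
theorem small_codes (K v : ℕ) (δ : ℝ) (hδ : 0 < δ) :
    ∃ M0 : ℕ, 0 < M0 ∧ ∀ M : ℕ, M0 ≤ M → cst M K ≤ δ ∧ ∃ x : ℝ, 0 < x ∧ x ≤ 1 ∧
      x ^ (-(cst M K * (M : ℝ) ^ K)) * (1 + (v : ℝ) * x) ^ (M ^ K) ≤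
        (2 : ℝ) ^ (δ * (M : ℝ) ^ K) := by
  have h2 : (1 : ℝ) < 2 ^ (δ / 2) := Real.one_lt_rpow (by norm_num) (by linarith)
  obtain ⟨x, hx0, hx1, hxv⟩ : ∃ x : ℝ, 0 < x ∧ x ≤ 1 ∧ 1 + (v : ℝ) * x ≤ 2 ^ (δ / 2) := by
    refine ⟨min 1 (((2 : ℝ) ^ (δ / 2) - 1) / (v + 1)), ?_, min_le_left _ _, ?_⟩
    · apply lt_min one_pos
      apply div_pos (by linarith) (by positivity)
    · have h3 : (v : ℝ) * min 1 (((2 : ℝ) ^ (δ / 2) - 1) / (v + 1)) ≤
          v * (((2 : ℝ) ^ (δ / 2) - 1) / (v + 1)) := by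
        gcongr
        exact min_le_right _ _
      have h4 : (v : ℝ) * (((2 : ℝ) ^ (δ / 2) - 1) / (v + 1)) ≤ (2 : ℝ) ^ (δ / 2) - 1 := by
        rw [mul_div_assoc', div_le_iff₀ (by positivity)]
        nlinarith
      linarith
  have hlim : Filter.Tendsto (fun M : ℕ => x ^ (-(cst M K))) Filter.atTop (nhds (x ^ (-(0 : ℝ)))) :=
    ((Real.continuousAt_const_rpow hx0.ne').tendsto.comp (cst_tendsto K).neg)
  have hev1 : ∀ᶠ M : ℕ in Filter.atTop, x ^ (-(cst M K)) < (2 : ℝ) ^ (δ / 2) := by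
    apply hlim.eventually_lt_const
    simpa using h2
  have hev2 : ∀ᶠ M : ℕ in Filter.atTop, cst M K < δ := (cst_tendsto K).eventually_lt_const hδ
  obtain ⟨M1, hM1⟩ := (hev1.and hev2).exists_forall_of_atTop
  refine ⟨M1 + 1, by omega, fun M hM => ⟨(hM1 M (by omega)).2.le, x, hx0, hx1, ?_⟩⟩
  have hb := (hM1 M (by omega)).1
  have e1 : x ^ (-(cst M K * (M : ℝ) ^ K)) = (x ^ (-(cst M K))) ^ (M ^ K) := by
    rw [← Real.rpow_natCast (x ^ (-(cst M K))), ← Real.rpow_mul hx0.le]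
    push_cast
    congr 1; ring
  rw [e1]
  calc (x ^ (-(cst M K))) ^ (M ^ K) * (1 + (v : ℝ) * x) ^ (M ^ K)
      ≤ ((2 : ℝ) ^ (δ / 2)) ^ (M ^ K) * ((2 : ℝ) ^ (δ / 2)) ^ (M ^ K) := by
        gcongr
    _ = (2 : ℝ) ^ (δ * (M : ℝ) ^ K) := by
        rw [← Real.rpow_natCast, ← Real.rpow_mul (by norm_num), ← Real.rpow_add (by norm_num)]
        push_cast
        congr 1; ring

/-! ## The data -/

/-- The data of the union bound. -/
structure CodingData (ι : Type*) [Fintype ι] (M : ℕ) (β 𝒜 T1 T2 V : Type*) [Fintype β]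
    (C0 : ℕ) where
  /-- symbols -/
  a : β → 𝒜
  /-- partial functions -/
  g : T1 → β → (ι → Fin M) → Option V
  /-- domains -/
  Dom : T1 → 𝒜 → (ι → Fin M) → Prop
  /-- the state is right -/
  Z : β → Finset (ι → Fin M)
  /-- the state is right and `f` lifts -/
  Y : β → Finset (ι → Fin M)
  /-- `τ` lifts -/
  L : T2 → β → Finset (ι → Fin M)
  hs : ∀ t b p, g t b p ≠ none → Dom t (a b) p
  hg : ∀ t b b', a b = a b' → ∀ x p : ι → Fin M, (∀ i, x i < p i) →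
    (∀ w, Dom t (a b) (vtx x p w)) →
    (∀ w, w ≠ (fun _ => true) → g t b (vtx x p w) ≠ none ∧
      g t b (vtx x p w) = g t b' (vtx x p w)) → g t b p = g t b' p
  hZ : ∀ b b', a b = a b' → (∀ t, g t b = g t b') → Z b = Z b'
  hYZ : ∀ b, Y b ⊆ Z b
  hLY : ∀ τ b, L τ b ⊆ Y b
  hYL : ∀ b, ∀ p ∈ Y b, ∃ τ, p ∈ L τ b
  hL : ∀ τ b b', a b = a b' → (∀ t, g t b = g t b') → Y b = Y b' →
    ∀ x p : ι → Fin M, (∀ i, x i < p i) → (∀ w, vtx x p w ∈ Y b) →
    (∀ w, w ≠ (fun _ => true) → vtx x p w ∈ L τ b ∧ vtx x p w ∈ L τ b') →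
    (p ∈ L τ b ↔ p ∈ L τ b')
  hP : ∀ b0, Nat.card {b // a b = a b0 ∧ (∀ t, g t b = g t b0) ∧ Y b = Y b0 ∧
      ∀ τ, L τ b = L τ b0} * 2 ^ Nat.card {p // ∃ τ, Corner (· ∈ L τ b0) p} * Nat.card 𝒜 ≤
    C0 * Fintype.card β

end Pool.Agent.Lib.MP_72e2e6_nt.Sm.Cnt
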